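import Pool.Agent.H21.UC.Stm

set_option autoImplicit false

/-! # Sharp concentration of the part not covered by independent random sets (part CONC2) -/

open Finset Classical

namespace Pool.Agent.H60.UC

theorem exp_neg_le {z : ℝ} (hz : 0 ≤ z) : Real.exp (-z) ≤ 1 - z + z ^ 2 / 2 := by
  have h1 := Real.quadratic_le_exp_of_nonneg hz
  have h2 : 0 < 1 + z + z ^ 2 / 2 := by positivity
  rw [Real.exp_neg]
  have h3 : (Real.exp z)⁻¹ ≤ (1 + z + z ^ 2 / 2)⁻¹ := inv_anti₀ h2 h1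
  refine h3.trans ?_
  rw [inv_le_iff_one_le_mul₀ h2]
  have h4 : (1 - z + z ^ 2 / 2) * (1 + z + z ^ 2 / 2) = 1 + z ^ 4 / 4 := by ring
  rw [h4]
  have : 0 ≤ z ^ 4 / 4 := by positivity
  linarith

theorem exp_neg_le' {z η : ℝ} (hz : 0 ≤ z) (hzη : z ≤ η) :
    Real.exp (-z) ≤ 1 - (1 - η / 2) * z := by
  refine (exp_neg_le hz).trans ?_
  nlinarith [mul_nonneg hz (sub_nonneg.mpr hzη)]

section conc

variable {Ω V : Type} [Fintype Ω]

/-- one random set -/
theorem conc_one (W : Ω → ℝ) (hW : ∀ ω, 0 ≤ W ω) (h1 : ∑ ω, W ω = 1) (f : Ω → Finset V)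
    (Nn : Finset V) (Bd η : ℝ) (hη1 : η ≤ 1) (τ : V → ℝ)
    (hτ : ∀ u ∈ Nn, τ u ≤
      ∑ ω ∈ univ.filter (fun ω => u ∈ f ω ∧ ((f ω ∩ Nn).card : ℝ) ≤ Bd), W ω)
    (w : V → ℝ) (hw0 : ∀ u ∈ Nn, 0 ≤ w u) (hw1 : ∀ u ∈ Nn, w u ≤ 1)
    (s : ℝ) (hs : 0 ≤ s) (hs1 : s * Bd ≤ η) (A : Finset V) (hA : A ⊆ Nn) :
    ∑ ω, W ω * Real.exp (s * ∑ u ∈ A \ f ω, w u) ≤
      Real.exp (s * ∑ u ∈ A, w u * (1 - (1 - η / 2) * τ u)) := by
  have hpt : ∀ ω, W ω * Real.exp (s * ∑ u ∈ A \ f ω, w u) ≤ Real.exp (s * ∑ u ∈ A, w u) *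
      (W ω - (1 - η / 2) * s * ∑ u ∈ A,
        w u * if (u ∈ f ω ∧ ((f ω ∩ Nn).card : ℝ) ≤ Bd) then W ω else 0) := by
    intro ω
    have hc : ∑ u ∈ A \ f ω, w u = ∑ u ∈ A, w u - ∑ u ∈ A ∩ f ω, w u := by
      have h2 := Finset.sum_inter_add_sum_sdiff A (f ω) w
      linarith
    have he : Real.exp (s * ∑ u ∈ A \ f ω, w u) = Real.exp (s * ∑ u ∈ A, w u) *
        Real.exp (-(s * ∑ u ∈ A ∩ f ω, w u)) := by
      rw [← Real.exp_add, hc]
      ring_nf
    have hsub : A ∩ f ω ⊆ A := Finset.inter_subset_left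
    have hz0 : 0 ≤ ∑ u ∈ A ∩ f ω, w u :=
      Finset.sum_nonneg fun u hu => hw0 u (hA (hsub hu))
    have hE := Real.exp_pos (s * ∑ u ∈ A, w u)
    by_cases hb : ((f ω ∩ Nn).card : ℝ) ≤ Bd
    · have hsum : ∑ u ∈ A, (w u * if (u ∈ f ω ∧ ((f ω ∩ Nn).card : ℝ) ≤ Bd) then W ω else 0) =
          (∑ u ∈ A ∩ f ω, w u) * W ω := by
        rw [Finset.sum_mul]
        have h9 : ∑ u ∈ A ∩ f ω, w u * W ω = ∑ u ∈ A, if u ∈ f ω then w u * W ω else 0 := by
          rw [← Finset.sum_filter]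
          exact Finset.sum_congr (Finset.filter_mem_eq_inter).symm fun _ _ => rfl
        rw [h9]
        refine Finset.sum_congr rfl fun u _ => ?_
        by_cases hu : u ∈ f ω
        · simp [hu, hb]
        · simp [hu]
      have hle : ∑ u ∈ A ∩ f ω, w u ≤ Bd := by
        have h3 : ∑ u ∈ A ∩ f ω, w u ≤ ∑ u ∈ A ∩ f ω, (1 : ℝ) :=
          Finset.sum_le_sum fun u hu => hw1 u (hA (hsub hu))
        rw [Finset.sum_const, nsmul_eq_mul, mul_one] at h3
        refine (h3.trans ?_).trans hb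
        have : (A ∩ f ω).card ≤ (f ω ∩ Nn).card := by
          refine Finset.card_le_card fun u hu => ?_
          rw [Finset.mem_inter] at hu ⊢
          exact ⟨hu.2, hA hu.1⟩
        exact_mod_cast this
      have hy0 : 0 ≤ s * ∑ u ∈ A ∩ f ω, w u := mul_nonneg hs hz0
      have hy1 : s * ∑ u ∈ A ∩ f ω, w u ≤ η :=
        (mul_le_mul_of_nonneg_left hle hs).trans hs1
      have h4 := exp_neg_le' hy0 hy1
      rw [hsum, he]
      have h5 : W ω * Real.exp (-(s * ∑ u ∈ A ∩ f ω, w u)) ≤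
          W ω * (1 - (1 - η / 2) * (s * ∑ u ∈ A ∩ f ω, w u)) :=
        mul_le_mul_of_nonneg_left h4 (hW ω)
      calc W ω * (Real.exp (s * ∑ u ∈ A, w u) * Real.exp (-(s * ∑ u ∈ A ∩ f ω, w u))) =
          Real.exp (s * ∑ u ∈ A, w u) * (W ω * Real.exp (-(s * ∑ u ∈ A ∩ f ω, w u))) := by ring
        _ ≤ Real.exp (s * ∑ u ∈ A, w u) *
            (W ω * (1 - (1 - η / 2) * (s * ∑ u ∈ A ∩ f ω, w u))) :=
            mul_le_mul_of_nonneg_left h5 hE.le
        _ = _ := by ring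
    · have hsum : ∑ u ∈ A, (w u * if (u ∈ f ω ∧ ((f ω ∩ Nn).card : ℝ) ≤ Bd) then W ω else 0) = 0 :=
        Finset.sum_eq_zero fun u _ => by rw [if_neg fun h => hb h.2, mul_zero]
      rw [hsum, mul_zero, sub_zero, he]
      have h4 : Real.exp (-(s * ∑ u ∈ A ∩ f ω, w u)) ≤ 1 := by
        rw [Real.exp_le_one_iff]
        have := mul_nonneg hs hz0
        linarith
      have h5 : W ω * Real.exp (-(s * ∑ u ∈ A ∩ f ω, w u)) ≤ W ω * 1 :=
        mul_le_mul_of_nonneg_left h4 (hW ω)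
      calc W ω * (Real.exp (s * ∑ u ∈ A, w u) * Real.exp (-(s * ∑ u ∈ A ∩ f ω, w u))) =
          Real.exp (s * ∑ u ∈ A, w u) * (W ω * Real.exp (-(s * ∑ u ∈ A ∩ f ω, w u))) := by ring
        _ ≤ Real.exp (s * ∑ u ∈ A, w u) * (W ω * 1) :=
            mul_le_mul_of_nonneg_left h5 hE.le
        _ = _ := by ring
  refine (Finset.sum_le_sum fun ω _ => hpt ω).trans ?_
  rw [← Finset.mul_sum, Finset.sum_sub_distrib, h1, ← Finset.mul_sum, Finset.sum_comm]
  have h6 : ∑ u ∈ A, w u * τ u ≤ ∑ u ∈ A, ∑ ω,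
      w u * (if (u ∈ f ω ∧ ((f ω ∩ Nn).card : ℝ) ≤ Bd) then W ω else 0) := by
    refine Finset.sum_le_sum fun u hu => ?_
    rw [← Finset.mul_sum, ← Finset.sum_filter]
    exact mul_le_mul_of_nonneg_left (hτ u (hA hu)) (hw0 u (hA hu))
  have h8 : (1 - η / 2) * s * ∑ u ∈ A, w u * τ u ≤ (1 - η / 2) * s * ∑ u ∈ A, ∑ ω,
      w u * (if (u ∈ f ω ∧ ((f ω ∩ Nn).card : ℝ) ≤ Bd) then W ω else 0) :=
    mul_le_mul_of_nonneg_left h6 (mul_nonneg (by linarith) hs)
  have h9 : 1 - (1 - η / 2) * s * ∑ u ∈ A, ∑ ω,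
      w u * (if (u ∈ f ω ∧ ((f ω ∩ Nn).card : ℝ) ≤ Bd) then W ω else 0) ≤
      Real.exp (-((1 - η / 2) * s * ∑ u ∈ A, w u * τ u)) := by
    have := Real.add_one_le_exp (-((1 - η / 2) * s * ∑ u ∈ A, w u * τ u))
    linarith
  refine (mul_le_mul_of_nonneg_left h9 (Real.exp_pos _).le).trans (le_of_eq ?_)
  rw [← Real.exp_add]
  congr 1
  have h10 : ∑ u ∈ A, w u * (1 - (1 - η / 2) * τ u) =
      ∑ u ∈ A, w u - (1 - η / 2) * ∑ u ∈ A, w u * τ u := by
    rw [Finset.mul_sum, ← Finset.sum_sub_distrib]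
    exact Finset.sum_congr rfl fun u _ => by ring
  rw [h10]
  ring

/-- independent random sets with different laws -/
theorem conc_n (W : Ω → ℝ) (hW : ∀ ω, 0 ≤ W ω) (h1 : ∑ ω, W ω = 1)
    (Nn : Finset V) (Bd η : ℝ) (hη0 : 0 ≤ η) (hη1 : η ≤ 1)
    (s : ℝ) (hs : 0 ≤ s) (hs1 : s * Bd ≤ η) : ∀ (n : ℕ) (f : Fin n → Ω → Finset V)
    (τ : Fin n → V → ℝ), (∀ j u, 0 ≤ τ j u) → (∀ j, ∀ u ∈ Nn, τ j u ≤
      ∑ ω ∈ univ.filter (fun ω => u ∈ f j ω ∧ ((f j ω ∩ Nn).card : ℝ) ≤ Bd), W ω) →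
    ∀ A : Finset V, A ⊆ Nn → ∑ ω : Fin n → Ω, (∏ j, W (ω j)) *
      Real.exp (s * ((A \ univ.biUnion (fun j => f j (ω j))).card : ℝ)) ≤
      Real.exp (s * ∑ u ∈ A, ∏ j, (1 - (1 - η / 2) * τ j u)) := by
  intro n
  induction n with
  | zero =>
    intro f τ _ _ A hA
    simp
  | succ n ih =>
    intro f τ hτ0 hτ A hA
    have hτ1 : ∀ j, ∀ u ∈ Nn, τ j u ≤ 1 := by
      intro j u hu
      refine (hτ j u hu).trans ?_
      rw [← h1]
      exact Finset.sum_le_sum_of_subset_of_nonneg (Finset.filter_subset _ _) fun ω _ _ => hW ω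
    have hf0 : ∀ j, ∀ u ∈ Nn, 0 ≤ 1 - (1 - η / 2) * τ j u := by
      intro j u hu
      have h2 := hτ1 j u hu
      have h3 := hτ0 j u
      nlinarith
    have hf1 : ∀ j, ∀ u ∈ Nn, 1 - (1 - η / 2) * τ j u ≤ 1 := by
      intro j u hu
      have h3 := hτ0 j u
      nlinarith
    rw [← Equiv.sum_comp (Fin.consEquiv (fun _ : Fin (n + 1) => Ω)), Fintype.sum_prod_type]
    have hin : ∀ a : Ω, ∑ ω : Fin n → Ω,
        (∏ j, W ((Fin.consEquiv (fun _ : Fin (n + 1) => Ω)) (a, ω) j)) *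
        Real.exp (s * ((A \ univ.biUnion (fun j =>
          f j ((Fin.consEquiv (fun _ : Fin (n + 1) => Ω)) (a, ω) j))).card : ℝ)) ≤
        W a * Real.exp (s * ∑ u ∈ A \ f 0 a, ∏ j : Fin n, (1 - (1 - η / 2) * τ j.succ u)) := by
      intro a
      have h2 := ih (fun j => f j.succ) (fun j => τ j.succ) (fun j u => hτ0 _ u)
        (fun j u hu => hτ _ u hu) (A \ f 0 a) (Finset.sdiff_subset.trans hA)
      refine le_trans (le_of_eq ?_) (mul_le_mul_of_nonneg_left h2 (hW a))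
      rw [Finset.mul_sum]
      refine Finset.sum_congr rfl fun ω _ => ?_
      have h3 : A \ univ.biUnion (fun j =>
          f j ((Fin.consEquiv (fun _ : Fin (n + 1) => Ω)) (a, ω) j)) =
          (A \ f 0 a) \ univ.biUnion (fun j => f j.succ (ω j)) := by
        ext u
        simp only [Finset.mem_sdiff, Finset.mem_biUnion, Finset.mem_univ, true_and, not_exists,
          Fin.consEquiv_apply]
        constructor
        · rintro ⟨h4, h5⟩
          refine ⟨⟨h4, ?_⟩, fun j => ?_⟩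
          · have := h5 0
            rwa [Fin.cons_zero] at this
          · have := h5 j.succ
            rwa [Fin.cons_succ] at this
        · rintro ⟨⟨h4, h5⟩, h6⟩
          refine ⟨h4, fun j => ?_⟩
          refine Fin.cases ?_ (fun j => ?_) j
          · rw [Fin.cons_zero]; exact h5
          · rw [Fin.cons_succ]; exact h6 j
      rw [h3, Fin.prod_univ_succ]
      simp only [Fin.consEquiv_apply, Fin.cons_zero, Fin.cons_succ]
      ring
    refine (Finset.sum_le_sum fun a _ => hin a).trans ?_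
    refine (conc_one W hW h1 (f 0) Nn Bd η hη1 (τ 0) (hτ 0)
      (fun u => ∏ j : Fin n, (1 - (1 - η / 2) * τ j.succ u))
      (fun u hu => Finset.prod_nonneg fun j _ => hf0 _ u hu)
      (fun u hu => Finset.prod_le_one (fun j _ => hf0 _ u hu) fun j _ => hf1 _ u hu)
      s hs hs1 A hA).trans (le_of_eq ?_)
    congr 2
    refine Finset.sum_congr rfl fun u _ => ?_
    rw [Fin.prod_univ_succ, mul_comm]

end conc

open Pool.Agent.H21.UC in
/-- CONC2 -/
theorem t_CONC2 : S_CONC2 := by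
  intro J Ω V _ _ _ W hW h1 f Nn Bd η τ m hB hη0 hη1 hτ0 hτ hm y
  set e : J ≃ Fin (Fintype.card J) := Fintype.equivFin J with he
  set s : ℝ := η / Bd with hsdef
  have hs : 0 ≤ s := by positivity
  have hs1 : s * Bd ≤ η := by rw [hsdef, div_mul_cancel₀ _ hB.ne']
  have h2 := conc_n W hW h1 Nn Bd η hη0.le hη1 s hs hs1 (Fintype.card J)
    (fun i => f (e.symm i)) (fun i => τ (e.symm i)) (fun i u => hτ0 _ u)
    (fun i u hu => hτ _ u hu) Nn (le_refl _)
  have h2' : ∑ ω : J → Ω, (∏ j, W (ω j)) *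
      Real.exp (s * ((Nn \ univ.biUnion (fun j => f j (ω j))).card : ℝ)) =
      ∑ ω : Fin (Fintype.card J) → Ω, (∏ i, W (ω i)) *
      Real.exp (s * ((Nn \ univ.biUnion (fun i => f (e.symm i) (ω i))).card : ℝ)) := by
    rw [← Equiv.sum_comp (Equiv.arrowCongr e (Equiv.refl Ω))]
    refine Finset.sum_congr rfl fun ω _ => ?_
    have h3 : ∏ i, W ((Equiv.arrowCongr e (Equiv.refl Ω)) ω i) = ∏ j, W (ω j) := by
      rw [← Equiv.prod_comp e]
      refine Finset.prod_congr rfl fun j _ => ?_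
      simp [Equiv.arrowCongr]
    have h4 : univ.biUnion (fun i => f (e.symm i) ((Equiv.arrowCongr e (Equiv.refl Ω)) ω i)) =
        univ.biUnion (fun j => f j (ω j)) := by
      ext u
      simp only [Finset.mem_biUnion, Finset.mem_univ, true_and]
      constructor
      · rintro ⟨i, hi⟩
        refine ⟨e.symm i, ?_⟩
        simpa [Equiv.arrowCongr] using hi
      · rintro ⟨j, hj⟩
        refine ⟨e j, ?_⟩
        simpa [Equiv.arrowCongr] using hj
    rw [h3, h4]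
  rw [← h2'] at h2
  have h3 : (∑ ω ∈ univ.filter (fun ω : J → Ω =>
      y ≤ ((Nn \ univ.biUnion (fun j => f j (ω j))).card : ℝ)), ∏ j, W (ω j)) *
      Real.exp (s * y) ≤ ∑ ω : J → Ω, (∏ j, W (ω j)) *
    Real.exp (s * ((Nn \ univ.biUnion (fun j => f j (ω j))).card : ℝ)) := by
    rw [Finset.sum_mul]
    refine le_trans (Finset.sum_le_sum fun ω hω => ?_)
      (Finset.sum_le_sum_of_subset_of_nonneg (Finset.filter_subset _ _) fun ω _ _ =>
        mul_nonneg (Finset.prod_nonneg fun _ _ => hW _) (Real.exp_pos _).le)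
    refine mul_le_mul_of_nonneg_left ?_ (Finset.prod_nonneg fun _ _ => hW _)
    exact Real.exp_le_exp.mpr (mul_le_mul_of_nonneg_left (Finset.mem_filter.mp hω).2 hs)
  have hτ1 : ∀ j, ∀ u ∈ Nn, τ j u ≤ 1 := by
    intro j u hu
    refine (hτ j u hu).trans ?_
    rw [← h1]
    exact Finset.sum_le_sum_of_subset_of_nonneg (Finset.filter_subset _ _) fun ω _ _ => hW ω
  have h4 : ∑ u ∈ Nn, ∏ i, (1 - (1 - η / 2) * τ (e.symm i) u) ≤
      Real.exp (-((1 - η / 2) * m)) * (Nn.card : ℝ) := by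
    have h5 : ∀ u ∈ Nn, ∏ i, (1 - (1 - η / 2) * τ (e.symm i) u) ≤
        Real.exp (-((1 - η / 2) * m)) := by
      intro u hu
      have h6 : ∏ i, (1 - (1 - η / 2) * τ (e.symm i) u) = ∏ j, (1 - (1 - η / 2) * τ j u) :=
        Equiv.prod_comp e.symm (fun j => 1 - (1 - η / 2) * τ j u)
      rw [h6]
      have h7 : ∏ j, (1 - (1 - η / 2) * τ j u) ≤ ∏ j, Real.exp (-((1 - η / 2) * τ j u)) := by
        refine Finset.prod_le_prod (fun j _ => ?_) (fun j _ => ?_)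
        · have h8 := hτ1 j u hu
          have h9 := hτ0 j u
          nlinarith
        · have := Real.add_one_le_exp (-((1 - η / 2) * τ j u))
          linarith
      refine h7.trans ?_
      rw [← Real.exp_sum]
      refine Real.exp_le_exp.mpr ?_
      rw [Finset.sum_neg_distrib, ← Finset.mul_sum]
      have h10 := mul_le_mul_of_nonneg_left (hm u hu) (show 0 ≤ 1 - η / 2 by linarith)
      linarith
    refine (Finset.sum_le_sum h5).trans (le_of_eq ?_)
    rw [Finset.sum_const, nsmul_eq_mul, mul_comm]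
  have h6 : Real.exp (s * ∑ u ∈ Nn, ∏ i, (1 - (1 - η / 2) * τ (e.symm i) u)) ≤
      Real.exp (s * (Real.exp (-((1 - η / 2) * m)) * (Nn.card : ℝ))) :=
    Real.exp_le_exp.mpr (mul_le_mul_of_nonneg_left h4 hs)
  have h7 := (h3.trans h2).trans h6
  rw [← le_div_iff₀ (Real.exp_pos _), ← Real.exp_sub] at h7
  refine h7.trans (le_of_eq ?_)
  congr 1
  rw [hsdef]
  ring

end Pool.Agent.H60.UC
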